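import Pool.Agent.W557.CY.Dualp
import Pool.Agent.W192.CY.Stneb

/-!
# CYN-DUALP: the dual part, complex coefficients (after the files of helper928, helper782, helper557)
-/
set_option autoImplicit false

namespace Pool.Agent.W904.CYNDualp

open Pool.Agent.W192.CY Pool.Agent.W928.CY Pool.Agent.W557.CYMDualp

/-- the bound for the terms of the series -/
theorem termC {a : ℕ → ℝ} (h0 : a 0 = 0)
    (hle : ∀ n : ℕ, 1 ≤ n → |a n| ≤ n.divisors.card * Real.sqrt n)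
    {η C1 : ℝ} (hη : 0 < η) (hη' : η < 1 / 8)
    (hC : ∀ n : ℕ, 1 ≤ n → (n.divisors.card : ℝ) ≤ C1 * (n : ℝ) ^ η) (hC1 : 0 < C1)
    {Z : ℝ} (hZ : 0 < Z) (n : ℕ) :
    |a n / n * Real.exp (-(n / Z))| ≤ C1 * Z ^ (1 / 2 + 2 * η) * (n : ℝ) ^ (-(1 + η)) := by
  rcases Nat.eq_zero_or_pos n with rfl | hn
  · rw [h0]
    simp only [CharP.cast_eq_zero, zero_div, neg_zero, Real.exp_zero, mul_one, abs_zero]
    rw [Real.zero_rpow (by linarith)]
    simp
  · have hn0 : (0 : ℝ) < n := by exact_mod_cast hn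
    have h1 := hle n hn
    have h2 := hC n hn
    have h3 : |a n / n| ≤ C1 * (n : ℝ) ^ η * (n : ℝ) ^ (-(1 / 2) : ℝ) := by
      rw [abs_div, abs_of_pos hn0, div_le_iff₀ hn0]
      refine h1.trans ?_
      have e : C1 * (n : ℝ) ^ η * (n : ℝ) ^ (-(1 / 2) : ℝ) * n = C1 * (n : ℝ) ^ η * Real.sqrt n := by
        rw [mul_assoc (C1 * (n : ℝ) ^ η), Real.sqrt_eq_rpow]
        congr 1
        nth_rewrite 2 [← Real.rpow_one (n : ℝ)]
        rw [← Real.rpow_add hn0]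
        norm_num
      rw [e]
      exact mul_le_mul_of_nonneg_right h2 (Real.sqrt_nonneg _)
    have h4 : Real.exp (-(n / Z)) ≤ (n : ℝ) ^ (-(1 / 2 + 2 * η)) * Z ^ (1 / 2 + 2 * η) := by
      refine (exp_le (a := 1 / 2 + 2 * η) (by linarith) (by linarith) (div_pos hn0 hZ)).trans ?_
      rw [Real.div_rpow hn0.le hZ.le, Real.rpow_neg hZ.le, div_inv_eq_mul]
    rw [abs_mul, abs_of_pos (Real.exp_pos _)]
    calc _ ≤ (C1 * (n : ℝ) ^ η * (n : ℝ) ^ (-(1 / 2) : ℝ)) *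
          ((n : ℝ) ^ (-(1 / 2 + 2 * η)) * Z ^ (1 / 2 + 2 * η)) :=
          mul_le_mul h3 h4 (Real.exp_pos _).le (by positivity)
      _ = C1 * Z ^ (1 / 2 + 2 * η) * ((n : ℝ) ^ η * (n : ℝ) ^ (-(1 / 2) : ℝ) *
          (n : ℝ) ^ (-(1 / 2 + 2 * η))) := by ring
      _ = _ := by
          rw [← Real.rpow_add hn0, ← Real.rpow_add hn0]
          congr 2
          ring


theorem n_dualp (h1 : S_DIV) (h2 : M_MOB) (h3' : M_KLOO) : N_DUALP := by
  intro V CV hV N hN c m hc ε hε hε'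
  set η : ℝ := ε / 8 with hηd
  have hη : 0 < η := by rw [hηd]; linarith
  have hη' : η < 1 / 8 := by rw [hηd]; linarith
  obtain ⟨C1, hC1, hC, -⟩ := h1 η hη
  obtain ⟨Ck, hCk, h3⟩ := h3' η hη
  have hCV := hV.pos
  set a : ℝ := 1 / 2 + 2 * η with had
  have hsum : Summable (fun n : ℕ => (n : ℝ) ^ (-(1 + η))) :=
    Real.summable_nat_rpow.2 (by linarith)
  set S : ℝ := ∑' n : ℕ, (n : ℝ) ^ (-(1 + η)) with hS
  have hS0 : 0 ≤ S := tsum_nonneg fun n => Real.rpow_nonneg (Nat.cast_nonneg n) _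
  have hNr : (1 : ℝ) ≤ N := by exact_mod_cast hN
  refine ⟨ε / 8, Ck * (CV * C1 ^ 3) * (N : ℝ) ^ a * S + 1, 0, by linarith, by positivity, ?_⟩
  intro q _ hq _ χ₀ hqd M hM hMd
  set d := orderOf χ₀ with hdd
  have hqpos : 0 < q := Nat.pos_of_ne_zero (NeZero.ne q)
  have hq0 : (0 : ℝ) < q := by exact_mod_cast hqpos
  have hq1 : (1 : ℝ) ≤ q := by exact_mod_cast hqpos
  set Y : ℝ := N * Real.sqrt q / (2 * Real.pi ^ 2) with hYd
  have hY : 0 < Y := by rw [hYd]; positivity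
  set Z : ℝ := 2 * Y with hZd
  have hZ : 0 < Z := by rw [hZd]; positivity
  have hpi : (1 : ℝ) ≤ Real.pi ^ 2 := by nlinarith [Real.pi_gt_three]
  have hZle : Z ≤ N * Real.sqrt q := by
    have e : Z = N * Real.sqrt q / Real.pi ^ 2 := by
      rw [hZd, hYd]
      field_simp
    rw [e]
    exact div_le_self (by positivity) hpi
  have hZa : Z ^ a ≤ (N : ℝ) ^ a * (q : ℝ) ^ (1 / 4 + η) := by
    refine (Real.rpow_le_rpow hZ.le hZle (by rw [had]; linarith)).trans (le_of_eq ?_)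
    rw [Real.mul_rpow (by positivity) (Real.sqrt_nonneg _), Real.sqrt_eq_rpow,
      ← Real.rpow_mul hq0.le]
    congr 2
    rw [had]; ring
  set τ : ℝ := (d.divisors.card : ℝ) with hτ
  have hd1 : 1 ≤ d := orderOf_pos χ₀
  have hdq : (d : ℝ) ≤ q := by
    obtain ⟨φ⟩ := DirichletCharacter.mulEquiv_units ℂ q
    have h8 : Nat.card (DirichletCharacter ℂ q) = q.totient := by
      rw [Nat.card_congr φ.toEquiv, Nat.card_eq_fintype_card, ZMod.card_units_eq_totient]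
    have h9 : d ∣ q.totient := by
      rw [← h8]
      exact orderOf_dvd_natCard χ₀
    exact_mod_cast (Nat.le_of_dvd (Nat.totient_pos.2 hqpos) h9).trans (Nat.totient_le q)
  have hτle : τ ≤ C1 * (q : ℝ) ^ η := by
    refine (hC d hd1).trans (mul_le_mul_of_nonneg_left ?_ hC1.le)
    exact Real.rpow_le_rpow (by positivity) hdq hη.le
  -- the inner sums
  have hin : ∀ b : ℕ, ‖∑ χ ∈ Em q χ₀ M,
      χ (b : ZMod q) * (χ (N : ZMod q) * gaussSum χ (ZMod.stdAddChar (N := q)) ^ 2 / q *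
        ∑' n : ℕ, (starRingEnd ℂ) (χ (n : ZMod q)) * (starRingEnd ℂ) (c n) / n *
        (V (n / Y) : ℂ))‖ ≤ Ck * τ * (q : ℝ) ^ (1 / 2 + η) * (CV * C1 * Z ^ a) * S := by
    intro b
    set an : ℕ → ℂ := fun n => (starRingEnd ℂ) (c n) / n * (V (n / Y) : ℂ) with han
    have hanb : ∀ n, ‖an n‖ ≤ CV * C1 * Z ^ a * (n : ℝ) ^ (-(1 + η)) := by
      intro n
      rw [han]
      show ‖(starRingEnd ℂ) (c n) / n * (V (n / Y) : ℂ)‖ ≤ _
      rw [norm_mul, norm_div, RCLike.norm_conj, Complex.norm_natCast, Complex.norm_real,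
        Real.norm_eq_abs]
      have t1 := termC (a := fun n => ‖c n‖) (by simp [hc.zero])
        (fun n hn => by rw [abs_norm]; exact hc.cle n hn) hη hη' hC hC1 hZ n
      have t2 := hV.dec (n / Y) (by positivity)
      have t3 : (n : ℝ) / Y / 2 = n / Z := by
        rw [hZd]
        field_simp
      rw [t3] at t2
      have t4 : |‖c n‖ / (n : ℝ) * Real.exp (-(n / Z))| = ‖c n‖ / (n : ℝ) * Real.exp (-(n / Z)) :=
        abs_of_nonneg (by positivity)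
      rw [t4] at t1
      calc ‖c n‖ / n * |V (n / Y)| ≤ ‖c n‖ / n * (CV * Real.exp (-(n / Z))) :=
            mul_le_mul_of_nonneg_left t2 (by positivity)
        _ = CV * (‖c n‖ / n * Real.exp (-(n / Z))) := by ring
        _ ≤ CV * (C1 * Z ^ (1 / 2 + 2 * η) * (n : ℝ) ^ (-(1 + η))) :=
            mul_le_mul_of_nonneg_left t1 hCV.le
        _ = _ := by rw [had]; ring
    have hans : Summable (fun n => ‖an n‖) :=
      Summable.of_nonneg_of_le (fun n => norm_nonneg _) hanb (hsum.mul_left _)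
    have e1 : ∀ χ : DirichletCharacter ℂ q, ∀ n : ℕ,
        (starRingEnd ℂ) (χ (n : ZMod q)) * (starRingEnd ℂ) (c n) / n * (V (n / Y) : ℂ) =
        (starRingEnd ℂ) (χ (n : ZMod q)) * an n := by
      intro χ n
      rw [han]
      ring
    have hs : ∀ χ : DirichletCharacter ℂ q,
        Summable (fun n : ℕ => (starRingEnd ℂ) (χ (n : ZMod q)) * an n) := by
      intro χ
      refine Summable.of_norm_bounded hans fun n => ?_
      rw [norm_mul, RCLike.norm_conj]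
      exact mul_le_of_le_one_left (norm_nonneg _) (DirichletCharacter.norm_le_one χ _)
    have e2 : ∑ χ ∈ Em q χ₀ M, χ (b : ZMod q) * (χ (N : ZMod q) *
        gaussSum χ (ZMod.stdAddChar (N := q)) ^ 2 / q *
        ∑' n : ℕ, (starRingEnd ℂ) (χ (n : ZMod q)) * (starRingEnd ℂ) (c n) / n *
        (V (n / Y) : ℂ)) =
        ∑' n : ℕ, ∑ χ ∈ Em q χ₀ M, χ (b : ZMod q) * (χ (N : ZMod q) *
        gaussSum χ (ZMod.stdAddChar (N := q)) ^ 2 / q *
          ((starRingEnd ℂ) (χ (n : ZMod q)) * an n)) := by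
      rw [Summable.tsum_finsetSum fun χ _ => ((hs χ).mul_left _).mul_left _]
      refine Finset.sum_congr rfl fun χ _ => ?_
      rw [tsum_congr (e1 χ), tsum_mul_left, tsum_mul_left]
    rw [e2]
    refine tsum_of_norm_bounded ((hsum.hasSum).mul_left
      (Ck * τ * (q : ℝ) ^ (1 / 2 + η) * (CV * C1 * Z ^ a))) ?_
    intro n
    have e3 : ∑ χ ∈ Em q χ₀ M, χ (b : ZMod q) * (χ (N : ZMod q) *
        gaussSum χ (ZMod.stdAddChar (N := q)) ^ 2 / q *
          ((starRingEnd ℂ) (χ (n : ZMod q)) * an n)) =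
        (∑ χ ∈ Em q χ₀ M, χ (b : ZMod q) * (χ (N : ZMod q) *
        gaussSum χ (ZMod.stdAddChar (N := q)) ^ 2 / q *
          (starRingEnd ℂ) (χ (n : ZMod q)))) * an n := by
      rw [Finset.sum_mul]
      refine Finset.sum_congr rfl fun χ _ => ?_
      ring
    rw [e3, norm_mul]
    calc _ ≤ (Ck * τ * (q : ℝ) ^ (1 / 2 + η)) * (CV * C1 * Z ^ a * (n : ℝ) ^ (-(1 + η))) :=
          mul_le_mul (keyM h2 hCk q χ₀ M hM hMd (h3 q χ₀) b N n) (hanb n) (norm_nonneg _) (by positivity)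
      _ = _ := by ring
  have hP : 0 ≤ Ck * τ * (q : ℝ) ^ (1 / 2 + η) * (CV * C1 * Z ^ a) * S := by positivity
  -- the outer sum
  have hout : ∀ b ∈ Finset.Icc 1 ⌊(q : ℝ) ^ (ε / 2)⌋₊, ‖(m b / b) * ∑ χ ∈ Em q χ₀ M,
      χ (b : ZMod q) * (χ (N : ZMod q) * gaussSum χ (ZMod.stdAddChar (N := q)) ^ 2 / q *
        ∑' n : ℕ, (starRingEnd ℂ) (χ (n : ZMod q)) * (starRingEnd ℂ) (c n) / n *
        (V (n / Y) : ℂ))‖ ≤ C1 * (Ck * τ * (q : ℝ) ^ (1 / 2 + η) * (CV * C1 * Z ^ a) * S) := by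
    intro b hb
    rw [Finset.mem_Icc] at hb
    have hb0 : (0 : ℝ) < b := by exact_mod_cast hb.1
    have hb1 : (1 : ℝ) ≤ b := by exact_mod_cast hb.1
    rw [norm_mul, norm_div, Complex.norm_natCast]
    refine mul_le_mul ?_ (hin b) (norm_nonneg _) hC1.le
    rw [div_le_iff₀ hb0]
    refine (hc.mle b hb.1).trans ?_
    calc (b.divisors.card : ℝ) * Real.sqrt b ≤ C1 * (b : ℝ) ^ η * (b : ℝ) ^ (1 / 2 : ℝ) := by
          rw [← Real.sqrt_eq_rpow]
          exact mul_le_mul_of_nonneg_right (hC b hb.1) (Real.sqrt_nonneg _)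
      _ = C1 * (b : ℝ) ^ (η + 1 / 2) := by rw [mul_assoc, ← Real.rpow_add hb0]
      _ ≤ C1 * (b : ℝ) ^ (1 : ℝ) := mul_le_mul_of_nonneg_left
          (Real.rpow_le_rpow_of_exponent_le hb1 (by linarith)) hC1.le
      _ = C1 * b := by rw [Real.rpow_one]
  refine (norm_sum_le _ _).trans ((Finset.sum_le_sum hout).trans ?_)
  rw [Finset.sum_const, nsmul_eq_mul, Nat.card_Icc, Nat.add_sub_cancel]
  have hfl : (⌊(q : ℝ) ^ (ε / 2)⌋₊ : ℝ) ≤ (q : ℝ) ^ (ε / 2) :=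
    Nat.floor_le (Real.rpow_nonneg hq0.le _)
  calc (⌊(q : ℝ) ^ (ε / 2)⌋₊ : ℝ) *
        (C1 * (Ck * τ * (q : ℝ) ^ (1 / 2 + η) * (CV * C1 * Z ^ a) * S))
      ≤ (q : ℝ) ^ (ε / 2) * (C1 * (Ck * (C1 * (q : ℝ) ^ η) * (q : ℝ) ^ (1 / 2 + η) *
        (CV * C1 * ((N : ℝ) ^ a * (q : ℝ) ^ (1 / 4 + η))) * S)) := by
        gcongr
    _ = Ck * (CV * C1 ^ 3) * (N : ℝ) ^ a * S * ((q : ℝ) ^ (ε / 2) * (q : ℝ) ^ η *
        (q : ℝ) ^ (1 / 2 + η) * (q : ℝ) ^ (1 / 4 + η)) := by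
        ring
    _ = Ck * (CV * C1 ^ 3) * (N : ℝ) ^ a * S * ((q : ℝ) ^ (3 / 4 + ε) * (q : ℝ) ^ (-(ε / 8))) := by
        rw [← Real.rpow_add hq0, ← Real.rpow_add hq0, ← Real.rpow_add hq0, ← Real.rpow_add hq0]
        congr 2
        rw [hηd]; ring
    _ ≤ Ck * (CV * C1 ^ 3) * (N : ℝ) ^ a * S * (d * (q : ℝ) ^ (-(ε / 8))) := by
        gcongr
    _ ≤ (Ck * (CV * C1 ^ 3) * (N : ℝ) ^ a * S + 1) * (d * (q : ℝ) ^ (-(ε / 8))) := by
        gcongr
        linarith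
    _ = _ := by ring


end Pool.Agent.W904.CYNDualp
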